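import Mathlib
import Pool.Agent.Q103.FS.Core0
import Pool.Agent.Q144.SU.Ext
import Pool.Agent.Q144.SU.B1
import Pool.Agent.Y706.CH.Gon

/-!
# Geometric uniform boundedness of preperiodic points on the projective line

MP_62a0c3_nt, Q1 for `N = 1`, for all rational maps: the number of the preperiodic points of gonality at
most `D` of a non-isotrivial rational map of degree `d ≥ 2` over any function field (of characteristic
zero) is at most a number which depends on nothing but `D` and `d`.

Proof. The theorem on the points over one function field of gonality at most `D` is assembled from the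
starting files (`Pool.Agent.Q144.SU.B.t_main` with `Pool.Agent.Q103.FS.core0`); the orbit of a point of
`Preper(f, D)` is in the projective line over such a field, so that it has a bounded number of points
(`Pool.Agent.Y706.CH7.gonc`).
-/

set_option autoImplicit false

namespace Pool.Agent.Results.MP_62a0c3_nt.AllMapsOfTheLine

open Polynomial

universe u v

/-- The self-map of the projective line `K ∪ {∞}`, where `none` is `∞`, given by the rational
function `p / q`, where `p` and `q` are coprime and `d` is the larger of their degrees: it sends
`x` to `p(x) / q(x)`, or to `∞` when `q(x) = 0`, and it sends `∞` to the quotient of the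
coefficients of degree `d`, or to `∞` when that of `q` is zero. -/
noncomputable def mapP1 {K : Type*} [Field K] (p q : K[X]) (d : ℕ) : Option K → Option K
  | some x => by classical exact if q.eval x = 0 then none else some (p.eval x / q.eval x)
  | none => by classical exact if q.coeff d = 0 then none else some (p.coeff d / q.coeff d)

/-- With `φ(x) = (a x + b) / (c x + e)`, the map `p / q` of degree `d` satisfies
`φ ∘ (p / q) = (u / w) ∘ φ` for some `a, b, c, e` in `F` with `a e ≠ b c` and some polynomials
`u, w` of degree at most `d`, not both zero, with coefficients algebraic over `k`; the equation is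
written with denominators cleared. -/
def ConjAlg (k : Type*) {F : Type*} [Field k] [Field F] [Algebra k F] (p q : F[X])
    (d : ℕ) : Prop :=
  ∃ a b c e : F, a * e - b * c ≠ 0 ∧ ∃ u w : F[X], (u ≠ 0 ∨ w ≠ 0) ∧
    u.natDegree ≤ d ∧ w.natDegree ≤ d ∧ (∀ n, IsAlgebraic k (u.coeff n)) ∧
    (∀ n, IsAlgebraic k (w.coeff n)) ∧
    (C a * p + C b * q) * ∑ i ∈ Finset.range (d + 1),
      C (w.coeff i) * (C a * X + C b) ^ i * (C c * X + C e) ^ (d - i) =
    (C c * p + C e * q) * ∑ i ∈ Finset.range (d + 1),
      C (u.coeff i) * (C a * X + C b) ^ i * (C c * X + C e) ^ (d - i)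

/-- The map `p / q` of degree `d` over `K` is isotrivial: over an algebraic closure of `K` it is
conjugate to a map with coefficients algebraic over `k` (in `k`, if `k` is the field of complex
numbers). -/
def Isotrivial (k : Type*) {K : Type*} [Field k] [Field K] [Algebra k K] (p q : K[X])
    (d : ℕ) : Prop :=
  ConjAlg k (p.map (algebraMap K (AlgebraicClosure K))) (q.map (algebraMap K (AlgebraicClosure K)))
    d

/-- The field `E` over `k` is a finite extension of `k(t)` of degree at most `D` for some `t`
transcendental over `k`: it is the function field of a curve over `k` of gonality at most `D`. -/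
def GonalityLE (k E : Type*) [Field k] [Field E] [Algebra k E] (D : ℕ) : Prop :=
  ∃ t : E, Transcendental k t ∧ FiniteDimensional (IntermediateField.adjoin k {t}) E ∧
    Module.finrank (IntermediateField.adjoin k {t}) E ≤ D

/-- The set `Preper(f, D)` for the rational map `f = p / q` of degree `d` over `K`: the points `z`
of the projective line over an algebraic closure of `K` with finite orbit for which the field
`K(z)` has gonality at most `D` over `k`. -/
def Preper (k : Type*) {K : Type*} [Field k] [Field K] [Algebra k K] (p q : K[X]) (d D : ℕ) :
    Set (Option (AlgebraicClosure K)) :=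
  {z | (Set.range fun m : ℕ => (mapP1 (p.map (algebraMap K (AlgebraicClosure K)))
      (q.map (algebraMap K (AlgebraicClosure K))) d)^[m] z).Finite ∧
    GonalityLE k (IntermediateField.adjoin K {x : AlgebraicClosure K | z = some x}) D}

/-- **Q1 for `N = 1`.** There is a function `C` such that the following holds for every field `k` of
characteristic zero (in particular for the field of complex numbers), every field `K` over `k` (in
particular for every function field of a curve over `k`), every `D`, every `d ≥ 2` and every rational
map `f = p / q` of degree `d` over `K`: if `f` is not isotrivial, then `Preper(f, D)` has at most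
`C(D, d)` points. -/
theorem result : ∃ C : ℕ → ℕ → ℕ, ∀ (k : Type v) (K : Type u) [Field k] [CharZero k]
    [Field K] [Algebra k K] (D d : ℕ), 2 ≤ d →
    ∀ p q : K[X], IsCoprime p q → max p.natDegree q.natDegree = d → ¬ Isotrivial k p q d →
    (Preper k p q d D).encard ≤ ((C D d : ℕ) : ℕ∞) := by
  have e : ∀ (K : Type u) [Field K] (p q : K[X]) (d : ℕ),
      mapP1 p q d = Pool.Agent.W277.UH.ratP1 p q d := by
    intro K _ p q d
    funext z
    cases z <;> rfl
  obtain ⟨N, hN⟩ := Pool.Agent.Q144.SU.B.t_main.{u, v} Pool.Agent.Q103.FS.core0.{u}
    Pool.Agent.Q144.SU.crc.{u} Pool.Agent.Q144.SU.ext.{u, v}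
  refine ⟨fun D d => (N D d + 1) * ((N D d + 1) * (2 * d ^ (N D d) + 1)), ?_⟩
  intro k K _ _ _ _ D d hd p q hco hmax hiso
  have hP : Preper k p q d D = {z : Option (AlgebraicClosure K) | (Set.range fun m : ℕ =>
        (Pool.Agent.W277.UH.ratP1 (p.map (algebraMap K (AlgebraicClosure K)))
          (q.map (algebraMap K (AlgebraicClosure K))) d)^[m] z).Finite ∧
      ∃ t : IntermediateField.adjoin K {x | z = some x}, Transcendental k t ∧
        FiniteDimensional (IntermediateField.adjoin k {t})
          (IntermediateField.adjoin K {x | z = some x}) ∧
        Module.finrank (IntermediateField.adjoin k {t})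
          (IntermediateField.adjoin K {x | z = some x}) ≤ D} := by
    unfold Preper
    rw [e]
    rfl
  rw [hP]
  refine Pool.Agent.Y706.CH7.gonc D d (N D d) hd p q hco hmax ?_
  intro E hE t ht hfd hD
  have hkEF : IsScalarTower k E (AlgebraicClosure K) := IsScalarTower.of_algebraMap_eq fun x => rfl
  have hmm : ∀ g : K[X], (g.map (algebraMap K E)).map (algebraMap E (AlgebraicClosure K)) =
      g.map (algebraMap K (AlgebraicClosure K)) := by
    intro g
    rw [Polynomial.map_map, ← IsScalarTower.algebraMap_eq]
  refine hN k E t ht hfd D d hD hd _ _
    (hco.map (Polynomial.mapRingHom (algebraMap K E)))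
    (Pool.Agent.Y706.CH7.deg_map (F := E) p q d hmax) ?_
  intro h
  apply hiso
  have h1 := Pool.Agent.Y31.BI.isoAlg_map (IsScalarTower.toAlgHom k E (AlgebraicClosure K)) h
  have h2 : ((IsScalarTower.toAlgHom k E (AlgebraicClosure K) :
      E →ₐ[k] AlgebraicClosure K) : E →+* AlgebraicClosure K) =
      algebraMap E (AlgebraicClosure K) := rfl
  rw [h2, hmm, hmm] at h1
  exact h1

end Pool.Agent.Results.MP_62a0c3_nt.AllMapsOfTheLine
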